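import Pool.Agent.Q96.ID.Stm

/-!
Lemma job ID-PMAP of project ID (helper96), proved by helper130: the projection onto the space of
the functions with small level sets.
-/

set_option autoImplicit false

open Cardinal Set Filter Topology Q96.ID

namespace Q130.ID.PMAP

theorem t_PMAP (h1 : S_ULIM) : S_PMAP := by
  intro 𝕜 _ κ hκ hκ' X J _ hJ D q p hD hp hq hpN
  choose Lp hLp hLpn using fun j => h1 𝕜 X (p j)
  obtain ⟨Lq, hLq, hLqn⟩ := h1 𝕜 X q
  have hbd : ∀ (f : Linf 𝕜 X) (j : J), ‖Lp j f - Lq f‖ ≤ 2 * ‖f‖ := by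
    intro f j
    have h2 := norm_sub_le (Lp j f) (Lq f)
    have h3 := hLpn j f
    have h4 := hLqn f
    linarith
  have hmem : ∀ f : Linf 𝕜 X, Memℓp (fun j : J => Lp j f - Lq f) ⊤ := by
    intro f
    refine memℓp_infty ⟨2 * ‖f‖, ?_⟩
    rintro _ ⟨j, rfl⟩
    exact hbd f j
  have hA : ∀ f : Linf 𝕜 X, (⟨fun j : J => Lp j f - Lq f, hmem f⟩ : Linf 𝕜 J) ∈
      A 𝕜 (Order.succ κ) hκ' J := by
    intro f ε hε
    rw [Order.lt_succ_iff]
    have hS : {x | ‖f x - Lq f‖ < ε / 2} ∈ q := by
      have h2 := (hLq f).eventually (Metric.ball_mem_nhds (Lq f) (half_pos hε))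
      filter_upwards [h2] with x hx
      rw [dist_eq_norm] at hx
      exact hx
    obtain ⟨γ, hγ⟩ := hD _ hS
    refine (mk_le_mk_of_subset ?_).trans (hJ γ)
    intro j hj
    show j ≤ γ
    by_contra hcon
    rw [not_le] at hcon
    have h2 := hp j γ hcon
    rw [hγ] at h2
    have h3 : ‖Lp j f - Lq f‖ ≤ ε / 2 := by
      have h4 : Tendsto (fun x => ‖f x - Lq f‖) (p j : Filter X) (𝓝 ‖Lp j f - Lq f‖) :=
        ((hLp j f).sub tendsto_const_nhds).norm
      refine le_of_tendsto h4 ?_
      filter_upwards [h2] with x hx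
      exact le_of_lt hx
    have h5 : ε < ‖Lp j f - Lq f‖ := hj
    linarith
  let r : Linf 𝕜 X →L[𝕜] A 𝕜 (Order.succ κ) hκ' J := LinearMap.mkContinuous
    { toFun := fun f => ⟨⟨fun j : J => Lp j f - Lq f, hmem f⟩, hA f⟩
      map_add' := by
        intro f g
        apply Subtype.ext
        apply lp.ext
        funext j
        show Lp j (f + g) - Lq (f + g) = (Lp j f - Lq f) + (Lp j g - Lq g)
        rw [map_add, map_add]
        ring
      map_smul' := by
        intro c f
        apply Subtype.ext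
        apply lp.ext
        funext j
        show Lp j (c • f) - Lq (c • f) = c • (Lp j f - Lq f)
        rw [map_smul, map_smul, smul_sub] } 2 (by
      intro f
      show ‖(⟨fun j : J => Lp j f - Lq f, hmem f⟩ : Linf 𝕜 J)‖ ≤ 2 * ‖f‖
      exact lp.norm_le_of_forall_le (by positivity) (fun j => hbd f j))
  have hr : ∀ (f : Linf 𝕜 X) (j : J), (r f : Linf 𝕜 J) j = Lp j f - Lq f := fun f j => rfl
  refine ⟨r, ?_, ?_⟩
  · intro f hf
    have key : ∀ (u : Ultrafilter X) (l : 𝕜), (∀ N : Set X, #N < κ → Nᶜ ∈ u) →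
        Tendsto (fun x => f x) (u : Filter X) (𝓝 l) → l = 0 := by
      intro u l hu hl
      rw [← norm_le_zero_iff]
      refine le_of_forall_pos_le_add fun ε hε => ?_
      rw [zero_add]
      have h2 := hu {x | ε < ‖f x‖} (hf ε hε)
      refine le_of_tendsto hl.norm ?_
      filter_upwards [h2] with x hx
      exact not_lt.mp hx
    apply Subtype.ext
    apply lp.ext
    funext j
    rw [hr, key (p j) _ (hpN j) (hLp j f), key q _ hq (hLq f), sub_zero]
    rfl
  · intro f j a b ha hb
    rw [hr, tendsto_nhds_unique ha (hLp j f), tendsto_nhds_unique hb (hLq f)]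

end Q130.ID.PMAP
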